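import Mathlib

/-!
# Tame truthful cake cutting for three agents: the abstract core (definitions)

Types live in a real normed space `E` (step functions with the sup norm), pieces are represented
by the functionals `x ↦ ∫_Z x` in `E →L[ℝ] ℝ`.  A *wall* is a nonzero difference `w` of two
pieces; `w = 1_G - 1_L`, and a type `τ` is supported in `G` iff `w τ = lam τ`.
-/

set_option autoImplicit false

open Set Filter Topology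

namespace Pool.Agent.Helper83.TM

/-- Abstract space of types. -/
structure Space (E : Type*) [NormedAddCommGroup E] [NormedSpace ℝ E] where
  /-- total mass -/
  lam : E →L[ℝ] ℝ
  /-- the types: nonnegative densities of positive mass -/
  Ty : Set E
  /-- functionals given by `{-1,0,1}`-valued functions -/
  Tri : Set (E →L[ℝ] ℝ)
  conv : Convex ℝ Ty
  /-- the constant density -/
  one : E
  one_int : one ∈ interior Ty
  lam_pos : ∀ x ∈ Ty, 0 < lam x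
  neg : ∀ w ∈ Tri, -w ∈ Tri
  par : ∀ w ∈ Tri, ∀ w' ∈ Tri, w ≠ 0 → w' ≠ 0 → ∀ α β : ℝ, α ≠ 0 → α • w = β • w' →
    w' = w ∨ w' = -w
  gpos : ∀ w ∈ Tri, ∀ x ∈ Ty, 0 < w x → ∃ τ ∈ Ty, w τ = lam τ
  tar : ∀ w ∈ Tri, ∀ v ∈ Tri, (∃ τ ∈ Ty, w τ = lam τ ∧ v τ = 0) ∨
    (∀ τ ∈ Ty, w τ = lam τ → v τ = lam τ) ∨ (∀ τ ∈ Ty, w τ = lam τ → v τ = - lam τ)
  ca : ∀ w ∈ Tri, ∀ v ∈ Tri, ∀ u ∈ Tri, (∃ τ ∈ Ty, w τ = lam τ) →
    (∀ τ ∈ Ty, w τ = lam τ → v τ = lam τ) → ∀ κ k : ℝ, (κ = 2 ∨ κ = -2) →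
    w + κ • v = k • u → ∀ d ∈ Ty, w d ≤ v d

/-- Abstract truthful whole-cake mechanism for three agents with positive values that is locally
finite.  The reports are `x`, `y`, `z`, the pieces are `A x y z`, `B x y z`, `C x y z`. -/
structure Mech {E : Type*} [NormedAddCommGroup E] [NormedSpace ℝ E] (S : Space E) where
  A : E → E → E → E →L[ℝ] ℝ
  B : E → E → E → E →L[ℝ] ℝ
  C : E → E → E → E →L[ℝ] ℝ
  sum : ∀ x y z, A x y z + B x y z + C x y z = S.lam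
  nA : ∀ x y z, ∀ t ∈ S.Ty, 0 ≤ A x y z t
  nB : ∀ x y z, ∀ t ∈ S.Ty, 0 ≤ B x y z t
  nC : ∀ x y z, ∀ t ∈ S.Ty, 0 ≤ C x y z t
  tA : ∀ x y z x' y' z', A x y z - A x' y' z' ∈ S.Tri
  tB : ∀ x y z x' y' z', B x y z - B x' y' z' ∈ S.Tri
  tC : ∀ x y z x' y' z', C x y z - C x' y' z' ∈ S.Tri
  iA : ∀ x x' y z, x ∈ S.Ty → A x' y z x ≤ A x y z x
  iB : ∀ x y y' z, y ∈ S.Ty → B x y' z y ≤ B x y z y
  iC : ∀ x y z z', z ∈ S.Ty → C x y z' z ≤ C x y z z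
  pA : ∀ x y z, x ∈ S.Ty → 0 < A x y z x
  pB : ∀ x y z, y ∈ S.Ty → 0 < B x y z y
  pC : ∀ x y z, z ∈ S.Ty → 0 < C x y z z
  bA : ∀ x y z t, |A x y z t| ≤ ‖t‖
  bB : ∀ x y z t, |B x y z t| ≤ ‖t‖
  bC : ∀ x y z t, |C x y z t| ≤ ‖t‖
  dB : ∀ x y z, x ∈ S.Ty → z ∈ S.Ty → ∃ τ ∈ S.Ty, B x y z τ = 0
  lf : ∀ x ∈ S.Ty, ∀ y ∈ S.Ty, ∀ z ∈ S.Ty, ∃ ε > 0,
    {q : (E →L[ℝ] ℝ) × (E →L[ℝ] ℝ) × (E →L[ℝ] ℝ) | ∃ x' ∈ S.Ty, ∃ y' ∈ S.Ty, ∃ z' ∈ S.Ty,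
      dist x' x < ε ∧ dist y' y < ε ∧ dist z' z < ε ∧
      q = (A x' y' z', B x' y' z', C x' y' z')}.Finite

variable {E : Type*} [NormedAddCommGroup E] [NormedSpace ℝ E] {S : Space E}

/-- exchange the first and the third agent -/
def Mech.swap (m : Mech S) : Mech S where
  A := fun x y z => m.C z y x
  B := fun x y z => m.B z y x
  C := fun x y z => m.A z y x
  sum := fun x y z => by rw [← m.sum z y x]; abel
  nA := fun x y z => m.nC z y x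
  nB := fun x y z => m.nB z y x
  nC := fun x y z => m.nA z y x
  tA := fun x y z x' y' z' => m.tC z y x z' y' x'
  tB := fun x y z x' y' z' => m.tB z y x z' y' x'
  tC := fun x y z x' y' z' => m.tA z y x z' y' x'
  iA := fun x x' y z h => m.iC z y x x' h
  iB := fun x y y' z h => m.iB z y y' x h
  iC := fun x y z z' h => m.iA z z' y x h
  pA := fun x y z h => m.pC z y x h
  pB := fun x y z h => m.pB z y x h
  pC := fun x y z h => m.pA z y x h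
  bA := fun x y z => m.bC z y x
  bB := fun x y z => m.bB z y x
  bC := fun x y z => m.bA z y x
  dB := fun x y z hx hz => m.dB z y x hz hx
  lf := fun x hx y hy z hz => by
    obtain ⟨ε, h0, h⟩ := m.lf z hz y hy x hx
    refine ⟨ε, h0, (h.image (fun q => (q.2.2, q.2.1, q.1))).subset ?_⟩
    rintro q ⟨x', hx', y', hy', z', hz', h1, h2, h3, rfl⟩
    exact ⟨(m.A z' y' x', m.B z' y' x', m.C z' y' x'),
      ⟨z', hz', y', hy', x', hx', h3, h2, h1, rfl⟩, rfl⟩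

/-- point of the line through `p` and `q` -/
def seg (p q : E) (t : ℝ) : E := (1 - t) • p + t • q

lemma seg_apply (φ : E →L[ℝ] ℝ) (p q : E) (t : ℝ) :
    φ (seg p q t) = (1 - t) * φ p + t * φ q := by
  simp [seg]

lemma seg_zero (p q : E) : seg p q 0 = p := by simp [seg]

lemma seg_one (p q : E) : seg p q 1 = q := by simp [seg]

lemma continuous_seg (p q : E) : Continuous (seg p q) := by
  unfold seg
  fun_prop

lemma seg_mem {K : Set E} (hK : Convex ℝ K) {p q : E} (hp : p ∈ K) (hq : q ∈ K) {t : ℝ}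
    (ht : t ∈ Icc (0 : ℝ) 1) : seg p q t ∈ K :=
  hK hp hq (by linarith [ht.2]) ht.1 (by ring)

/-- Any two walls through the point `x` are equal up to the sign. -/
def Simple (D : Set (E →L[ℝ] ℝ)) (x : E) : Prop :=
  ∀ w ∈ D, ∀ w' ∈ D, w ≠ 0 → w' ≠ 0 → w x = 0 → w' x = 0 → w' = w ∨ w' = -w

/-- Between `y''` and `y'` there is at most the wall `w` (no wall if `w = 0`), and `y'` is on its
positive side. -/
def Adj (D : Set (E →L[ℝ] ℝ)) (w : E →L[ℝ] ℝ) (y' y'' : E) : Prop :=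
  ∀ u ∈ D, 0 ≤ u y' → u y'' ≤ 0 → u = 0 ∨ u = w

/-- The types within distance `δ` of the convex hull of `F`. -/
def Nr (S : Space E) (δ : ℝ) (F : Set E) : Set E :=
  S.Ty ∩ Metric.thickening δ (convexHull ℝ F)

lemma convex_Nr (δ : ℝ) (F : Set E) : Convex ℝ (Nr S δ F) :=
  S.conv.inter ((convex_convexHull ℝ F).thickening δ)

lemma Nr_ty {δ : ℝ} {F : Set E} {x : E} (h : x ∈ Nr S δ F) : x ∈ S.Ty := h.1

lemma Nr_mono {δ : ℝ} {F G : Set E} (h : F ⊆ G) : Nr S δ F ⊆ Nr S δ G :=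
  inter_subset_inter_right _ (Metric.thickening_subset_of_subset δ (convexHull_mono h))

lemma mem_Nr {δ : ℝ} (hδ : 0 < δ) {F : Set E} {x : E} (hx : x ∈ F) (h : x ∈ S.Ty) :
    x ∈ Nr S δ F :=
  ⟨h, Metric.self_subset_thickening hδ _ (subset_convexHull ℝ F hx)⟩

/-- a type close to a point of `F` -/
lemma mem_Nr_of_dist {δ : ℝ} {F : Set E} {x p : E} (hp : p ∈ F) (h : x ∈ S.Ty)
    (hd : dist x p < δ) : x ∈ Nr S δ F :=
  ⟨h, Metric.mem_thickening_iff.2 ⟨p, subset_convexHull ℝ F hp, hd⟩⟩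

/-- The chain of finite sets of types. -/
structure Chain (m : Mech S) where
  δ : ℝ
  δ_pos : 0 < δ
  F1 : Set E
  F2 : Set E
  F3 : Set E
  fin : F3.Finite
  ty : F3 ⊆ S.Ty
  one1 : S.one ∈ F1
  s12 : F1 ⊆ F2
  s23 : F2 ⊆ F3
  /-- differences of the pieces of the second agent near `F1` -/
  D1 : Set (E →L[ℝ] ℝ)
  /-- differences of the pieces of the first and third agent near `F2` -/
  D2 : Set (E →L[ℝ] ℝ)
  /-- all differences near `F3` -/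
  D : Set (E →L[ℝ] ℝ)
  D_fin : D.Finite
  D_tri : D ⊆ S.Tri
  D_neg : ∀ u ∈ D, -u ∈ D
  t1 : ∀ x ∈ Nr S δ {S.one}, ∀ y ∈ Nr S δ {S.one}, ∀ z ∈ Nr S δ {S.one}, ∃ τ ∈ F1, m.B x y z τ = 0
  d1 : ∀ x ∈ Nr S δ F1, ∀ y ∈ Nr S δ F1, ∀ z ∈ Nr S δ F1, ∀ x' ∈ Nr S δ F1, ∀ y' ∈ Nr S δ F1,
    ∀ z' ∈ Nr S δ F1, m.B x y z - m.B x' y' z' ∈ D1
  t2 : ∀ w ∈ D1, (∃ τ ∈ S.Ty, w τ = S.lam τ) → ∃ τ ∈ F2, w τ = S.lam τ
  d2A : ∀ x ∈ Nr S δ F2, ∀ y ∈ Nr S δ F2, ∀ z ∈ Nr S δ F2, ∀ x' ∈ Nr S δ F2, ∀ y' ∈ Nr S δ F2,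
    ∀ z' ∈ Nr S δ F2, m.A x y z - m.A x' y' z' ∈ D2
  d2C : ∀ x ∈ Nr S δ F2, ∀ y ∈ Nr S δ F2, ∀ z ∈ Nr S δ F2, ∀ x' ∈ Nr S δ F2, ∀ y' ∈ Nr S δ F2,
    ∀ z' ∈ Nr S δ F2, m.C x y z - m.C x' y' z' ∈ D2
  t3 : ∀ w ∈ D1, ∀ v ∈ D2, (∃ τ ∈ S.Ty, w τ = S.lam τ ∧ v τ = 0) →
    ∃ τ ∈ F3, w τ = S.lam τ ∧ v τ = 0
  d3A : ∀ x ∈ Nr S δ F3, ∀ y ∈ Nr S δ F3, ∀ z ∈ Nr S δ F3, ∀ x' ∈ Nr S δ F3, ∀ y' ∈ Nr S δ F3,
    ∀ z' ∈ Nr S δ F3, m.A x y z - m.A x' y' z' ∈ D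
  d3B : ∀ x ∈ Nr S δ F3, ∀ y ∈ Nr S δ F3, ∀ z ∈ Nr S δ F3, ∀ x' ∈ Nr S δ F3, ∀ y' ∈ Nr S δ F3,
    ∀ z' ∈ Nr S δ F3, m.B x y z - m.B x' y' z' ∈ D
  d3C : ∀ x ∈ Nr S δ F3, ∀ y ∈ Nr S δ F3, ∀ z ∈ Nr S δ F3, ∀ x' ∈ Nr S δ F3, ∀ y' ∈ Nr S δ F3,
    ∀ z' ∈ Nr S δ F3, m.C x y z - m.C x' y' z' ∈ D

/-- the chain of the swapped mechanism -/
def Chain.swap {m : Mech S} (c : Chain m) : Chain m.swap where
  δ := c.δ
  δ_pos := c.δ_pos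
  F1 := c.F1
  F2 := c.F2
  F3 := c.F3
  fin := c.fin
  ty := c.ty
  one1 := c.one1
  s12 := c.s12
  s23 := c.s23
  D1 := c.D1
  D2 := c.D2
  D := c.D
  D_fin := c.D_fin
  D_tri := c.D_tri
  D_neg := c.D_neg
  t1 := fun x hx y hy z hz => c.t1 z hz y hy x hx
  d1 := fun x hx y hy z hz x' hx' y' hy' z' hz' => c.d1 z hz y hy x hx z' hz' y' hy' x' hx'
  t2 := c.t2
  d2A := fun x hx y hy z hz x' hx' y' hy' z' hz' => c.d2C z hz y hy x hx z' hz' y' hy' x' hx'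
  d2C := fun x hx y hy z hz x' hx' y' hy' z' hz' => c.d2A z hz y hy x hx z' hz' y' hy' x' hx'
  t3 := c.t3
  d3A := fun x hx y hy z hz x' hx' y' hy' z' hz' => c.d3C z hz y hy x hx z' hz' y' hy' x' hx'
  d3B := fun x hx y hy z hz x' hx' y' hy' z' hz' => c.d3B z hz y hy x hx z' hz' y' hy' x' hx'
  d3C := fun x hx y hy z hz x' hx' y' hy' z' hz' => c.d3A z hz y hy x hx z' hz' y' hy' x' hx'

end Pool.Agent.Helper83.TM
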