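import Pool.Agent.Helper83.TM.St.Wall
import Pool.Agent.Helper83.TM.St.Ch
import Pool.Agent.Helper83.TM.St.Loc

/-!
# The abstract theorem
-/

set_option autoImplicit false

open Set Filter Topology

namespace Pool.Agent.Helper83.TM

variable {E : Type*} [NormedAddCommGroup E] [NormedSpace ℝ E] {S : Space E}

theorem core (m : Mech S) : False := by
  obtain ⟨c⟩ := exists_chain m
  obtain ⟨d, hd, hd', hgen, w, hw, y', hy', y'', hy'', hwd, hadj, hB⟩ := exists_wall c
  have hδ := c.δ_pos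
  have hone1 : Nr S c.δ {S.one} ⊆ Nr S c.δ c.F1 := Nr_mono (singleton_subset_iff.2 c.one1)
  have h12 : Nr S c.δ c.F1 ⊆ Nr S c.δ c.F2 := Nr_mono c.s12
  have h23 : Nr S c.δ c.F2 ⊆ Nr S c.δ c.F3 := Nr_mono c.s23
  have hd3 : d ∈ Nr S c.δ c.F3 := h23 (h12 (hone1 hd'))
  have hwD : w ∈ c.D := by
    rw [← hB]
    exact c.d3B d hd3 y' (h23 (h12 hy')) d hd3 d hd3 y'' (h23 (h12 hy'')) d hd3
  obtain ⟨τ, hτ, hwτ⟩ := c.t2 w hw (S.gpos w (c.D_tri hwD) d (Nr_ty hd') hwd)
  have hτty : τ ∈ S.Ty := c.ty (c.s23 hτ)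
  obtain ⟨ρ, hρ, hpos⟩ := pos_nearC c (c.s23 hτ)
  have hSd : Simple c.D d := fun u hu _ _ h0 _ h1 _ => absurd h1 (hgen u hu h0)
  -- the end point of the path
  set O : Set E := interior S.Ty ∩ (Metric.ball τ ρ ∩ (Metric.ball τ c.δ ∩ {x | 0 < w x})) with hO
  have hOo : IsOpen O := by
    refine isOpen_interior.inter (Metric.isOpen_ball.inter (Metric.isOpen_ball.inter ?_))
    exact isOpen_lt continuous_const w.continuous
  have hOne : O.Nonempty := by
    have hc := continuous_seg τ d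
    have h0 : seg τ d 0 = τ := seg_zero _ _
    have h1 : ∀ᶠ θ in 𝓝[>] (0 : ℝ), seg τ d θ ∈ Metric.ball τ ρ ∩ (Metric.ball τ c.δ ∩
        {x | 0 < w x}) := by
      have hopen : IsOpen (Metric.ball τ ρ ∩ (Metric.ball τ c.δ ∩ {x | 0 < w x})) :=
        Metric.isOpen_ball.inter (Metric.isOpen_ball.inter
          (isOpen_lt continuous_const w.continuous))
      have hmem : seg τ d 0 ∈ Metric.ball τ ρ ∩ (Metric.ball τ c.δ ∩ {x | 0 < w x}) := by
        rw [h0]
        refine ⟨Metric.mem_ball_self hρ, Metric.mem_ball_self hδ, ?_⟩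
        show 0 < w τ
        rw [hwτ]; exact S.lam_pos τ hτty
      exact nhdsWithin_le_nhds (hc.continuousAt.eventually (hopen.mem_nhds hmem))
    have h2 : ∀ᶠ θ in 𝓝[>] (0 : ℝ), θ ∈ Ioc (0 : ℝ) 1 := Ioc_mem_nhdsGT (by norm_num)
    obtain ⟨θ, h3, h4⟩ := (h1.and h2).exists
    refine ⟨seg τ d θ, ?_, h3⟩
    exact S.conv.combo_self_interior_mem_interior hτty hd (by linarith [h4.2]) h4.1 (by ring)
  obtain ⟨z, hzO, hs⟩ := exists_seg (S := S) c.D_fin c.D_tri hSd hOo hOne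
  obtain ⟨hzi, hzρ, hzδ, hwz⟩ := hzO
  have hzty : z ∈ S.Ty := interior_subset hzi
  have hz2 : z ∈ Nr S c.δ c.F2 := mem_Nr_of_dist hτ hzty hzδ
  have hwz' : 0 < w z := hwz
  -- effectiveness along the path
  let g : ℝ → Prop := fun s => m.B (seg d z s) y' (seg d z s) = m.B (seg d z s) y'' (seg d z s)
  have hg : g 0 = g 1 := by
    apply const_of_local
    intro s hs1
    obtain ⟨N1, hN1, h1⟩ := local_claim c hw hd hd' hgen hy' hy'' hadj hwd hτ hwτ hzi hz2 hwz' hs
      hs1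
    obtain ⟨N2, hN2, h2⟩ := local_claim c.swap hw hd hd' hgen hy' hy'' hadj hwd hτ hwτ hzi hz2
      hwz' hs hs1
    refine ⟨N1 ∩ N2, inter_mem hN1 hN2, fun s' h3 s'' h4 h5 h6 => ?_⟩
    apply propext
    have e1 := h1 s'' h4.1 s' h3.1 s' h3.1 h6 h5 h5
    have e2 := h2 s'' h4.2 s' h3.2 s'' h4.2 h6 h5 h6
    exact e1.trans e2
  have g0 : ¬ g 0 := by
    show ¬ (m.B (seg d z 0) y' (seg d z 0) = m.B (seg d z 0) y'' (seg d z 0))
    rw [seg_zero]
    intro h
    rw [h, sub_self] at hB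
    rw [← hB] at hwd
    simp at hwd
  have g1 : g 1 := by
    show m.B (seg d z 1) y' (seg d z 1) = m.B (seg d z 1) y'' (seg d z 1)
    rw [seg_one]
    have hz3 := h23 hz2
    have hy3 := h23 (h12 hy')
    have hy3' := h23 (h12 hy'')
    have hD := c.d3B z hz3 y' hy3 z hz3 z hz3 y'' hy3' z hz3
    rcases hadj _ hD (by
      have := m.iB z y' y'' z (Nr_ty hy')
      simp only [ContinuousLinearMap.sub_apply]
      linarith) (by
      have := m.iB z y'' y' z (Nr_ty hy'')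
      simp only [ContinuousLinearMap.sub_apply]
      linarith) with h | h
    · exact sub_eq_zero.1 h
    · exfalso
      have h1 := hpos z hz3 y' hy3 z hzty hzρ
      have h2 : m.B z y' z τ - m.B z y'' z τ = S.lam τ := by
        rw [← hwτ, ← h]; rfl
      have h3 := m.nB z y'' z τ hτty
      have h4 := m.nA z y' z τ hτty
      have h5 : m.A z y' z τ + m.B z y' z τ + m.C z y' z τ = S.lam τ := by
        rw [← m.sum z y' z]; rfl
      linarith
  exact g0 (hg ▸ g1)

end Pool.Agent.Helper83.TM
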