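import Pool.Agent.Helper83.TM.St.SpA
import Pool.Agent.Helper83.TM.St.SpB

/-!
# The space of step functions as an abstract space of types
-/

set_option autoImplicit false

open MeasureTheory Set Filter Topology

namespace Pool.Agent.Helper83.TM

/-- the space of step functions -/
noncomputable def sp : Space stepSub where
  lam := fn one
  Ty := TyS
  Tri := TriS
  conv := conv_S
  one := one
  one_int := one_int_S
  lam_pos := lam_pos_S
  neg := neg_S
  par := par_S
  gpos := gpos_S
  tar := tar_S
  ca := ca_S

end Pool.Agent.Helper83.TM
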