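import Pool.Agent.Helper83.TM.Defs
import Pool.Agent.Helper83.CakeLF

/-!
# Step functions with the sup norm (definitions and first facts)
-/

set_option autoImplicit false

open MeasureTheory Set Filter Topology

namespace Pool.Agent.Helper83.TM

open Pool.Agent.Helper83.Cake

/-- constant on each of finitely many intervals that make up `[0,1]` -/
def IsStep (f : unitInterval → ℝ) : Prop :=
  ∃ S : Set (Set unitInterval), S.Finite ∧ (∀ J ∈ S, J.OrdConnected) ∧
    ⋃₀ S = univ ∧ ∀ J ∈ S, ∃ c : ℝ, ∀ x ∈ J, f x = c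

lemma isStep_const (c : ℝ) : IsStep (fun _ => c) := by
  refine ⟨{univ}, finite_singleton _, ?_, by simp, ?_⟩
  · rintro J rfl; exact ordConnected_univ
  · rintro J rfl; exact ⟨c, fun _ _ => rfl⟩

lemma IsStep.map₂ {f g : unitInterval → ℝ} (hf : IsStep f) (hg : IsStep g) (φ : ℝ → ℝ → ℝ) :
    IsStep (fun x => φ (f x) (g x)) := by
  obtain ⟨S, Sf, So, Su, Sc⟩ := hf
  obtain ⟨T, Tf, To, Tu, Tc⟩ := hg
  refine ⟨image2 (· ∩ ·) S T, Sf.image2 _ Tf, ?_, ?_, ?_⟩
  · rintro J ⟨a, ha, b, hb, rfl⟩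
    exact (So a ha).inter (To b hb)
  · rw [eq_univ_iff_forall]
    intro x
    have h1 : x ∈ ⋃₀ S := by rw [Su]; trivial
    have h2 : x ∈ ⋃₀ T := by rw [Tu]; trivial
    obtain ⟨a, ha, hxa⟩ := h1
    obtain ⟨b, hb, hxb⟩ := h2
    exact ⟨a ∩ b, ⟨a, ha, b, hb, rfl⟩, hxa, hxb⟩
  · rintro J ⟨a, ha, b, hb, rfl⟩
    obtain ⟨c, hc⟩ := Sc a ha
    obtain ⟨e, he⟩ := Tc b hb
    exact ⟨φ c e, fun x hx => by show φ (f x) (g x) = _; rw [hc x hx.1, he x hx.2]⟩

lemma IsStep.map {f : unitInterval → ℝ} (hf : IsStep f) (φ : ℝ → ℝ) :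
    IsStep (fun x => φ (f x)) := hf.map₂ hf (fun a _ => φ a)

lemma IsStep.bdd {f : unitInterval → ℝ} (hf : IsStep f) : ∃ C, ∀ x, |f x| ≤ C := by
  obtain ⟨S, Sf, -, Su, Sc⟩ := hf
  choose! c hc using Sc
  obtain ⟨C, hC⟩ := ((Sf.image (fun J => |c J|)).bddAbove)
  refine ⟨C, fun x => ?_⟩
  have h1 : x ∈ ⋃₀ S := by rw [Su]; trivial
  obtain ⟨a, ha, hxa⟩ := h1
  rw [hc a ha x hxa]
  exact hC ⟨a, ha, rfl⟩

lemma IsStep.measurable {f : unitInterval → ℝ} (hf : IsStep f) : Measurable f := by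
  obtain ⟨S, Sf, So, Su, Sc⟩ := hf
  intro t _
  have : f ⁻¹' t = ⋃₀ {J ∈ S | ∃ x ∈ J, f x ∈ t} := by
    ext x
    constructor
    · intro hx
      have h1 : x ∈ ⋃₀ S := by rw [Su]; trivial
      obtain ⟨a, ha, hxa⟩ := h1
      exact ⟨a, ⟨ha, x, hxa, hx⟩, hxa⟩
    · rintro ⟨a, ⟨ha, y, hy, hyt⟩, hxa⟩
      obtain ⟨c, hc⟩ := Sc a ha
      show f x ∈ t
      rw [hc x hxa, ← hc y hy]
      exact hyt
  rw [this]
  exact MeasurableSet.sUnion (Sf.subset (sep_subset _ _)).countable
    (fun J hJ => (So J hJ.1).measurableSet)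

/-- the space of step functions with the sup norm -/
def stepSub : Submodule ℝ (lp (fun _ : unitInterval => ℝ) ⊤) where
  carrier := {f | IsStep (fun x => f x)}
  add_mem' := fun {_ _} hf hg => hf.map₂ hg (fun a b => a + b)
  zero_mem' := isStep_const 0
  smul_mem' := fun c f hf => IsStep.map (f := fun x => f x) hf (fun a => c * a)

/-- a step function as an element of the space -/
noncomputable def mkS (f : unitInterval → ℝ) (hf : IsStep f) : stepSub :=
  ⟨⟨f, memℓp_infty (by
    obtain ⟨C, hC⟩ := hf.bdd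
    exact ⟨C, by rintro _ ⟨x, rfl⟩; exact hC x⟩)⟩, hf⟩

/-- the function of an element -/
def co (x : stepSub) : unitInterval → ℝ := fun u => (x.1 : ∀ _ : unitInterval, ℝ) u

@[simp] lemma co_mkS (f : unitInterval → ℝ) (hf : IsStep f) : co (mkS f hf) = f := rfl

lemma isStep_co (x : stepSub) : IsStep (co x) := x.2

lemma co_ext {x y : stepSub} (h : co x = co y) : x = y :=
  Subtype.ext (lp.ext (funext fun u => congrFun h u))

lemma co_add (x y : stepSub) (u : unitInterval) : co (x + y) u = co x u + co y u := rfl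

lemma co_sub (x y : stepSub) (u : unitInterval) : co (x - y) u = co x u - co y u := rfl

lemma co_smul (c : ℝ) (x : stepSub) (u : unitInterval) : co (c • x) u = c * co x u := rfl

lemma co_neg (x : stepSub) (u : unitInterval) : co (-x) u = - co x u := rfl

lemma abs_co_le (x : stepSub) (u : unitInterval) : |co x u| ≤ ‖x‖ := by
  have := lp.norm_apply_le_norm (p := ⊤) (by simp) x.1 u
  exact this

lemma norm_le_of {x : stepSub} {C : ℝ} (hC : 0 ≤ C) (h : ∀ u, |co x u| ≤ C) : ‖x‖ ≤ C :=
  lp.norm_le_of_forall_le hC h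

lemma co_measurable (x : stepSub) : Measurable (co x) := (isStep_co x).measurable

lemma integrable_mul (w x : stepSub) : Integrable (fun u => co w u * co x u) := by
  refine Integrable.of_bound ((co_measurable w).mul (co_measurable x)).aestronglyMeasurable
    (‖w‖ * ‖x‖) (ae_of_all _ fun u => ?_)
  rw [Real.norm_eq_abs, abs_mul]
  exact mul_le_mul (abs_co_le w u) (abs_co_le x u) (abs_nonneg _) (norm_nonneg _)

/-- the functional `x ↦ ∫ w x` -/
noncomputable def fn (w : stepSub) : stepSub →L[ℝ] ℝ :=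
  LinearMap.mkContinuous
    { toFun := fun x => ∫ u, co w u * co x u
      map_add' := fun x y => by
        rw [← integral_add (integrable_mul w x) (integrable_mul w y)]
        congr 1; funext u; rw [co_add]; ring
      map_smul' := fun c x => by
        rw [RingHom.id_apply, smul_eq_mul, ← integral_const_mul]
        congr 1; funext u; rw [co_smul]; ring } ‖w‖ (fun x => by
    show ‖∫ u, co w u * co x u‖ ≤ _
    have h := norm_integral_le_of_norm_le_const (μ := (volume : Measure unitInterval))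
      (f := fun u => co w u * co x u) (C := ‖w‖ * ‖x‖) (ae_of_all _ fun u => by
        rw [Real.norm_eq_abs, abs_mul]
        exact mul_le_mul (abs_co_le w u) (abs_co_le x u) (abs_nonneg _) (norm_nonneg _))
    simpa using h)

lemma fn_apply (w x : stepSub) : fn w x = ∫ u, co w u * co x u := rfl

/-- the constant density -/
noncomputable def one : stepSub := mkS (fun _ => 1) (isStep_const 1)

/-- the densities -/
def TyS : Set stepSub := {x | IsDensity (co x)}

/-- functionals given by `{-1,0,1}`-valued step functions -/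
def TriS : Set (stepSub →L[ℝ] ℝ) :=
  {φ | ∃ w : stepSub, (∀ u, co w u = 0 ∨ co w u = 1 ∨ co w u = -1) ∧ φ = fn w}

end Pool.Agent.Helper83.TM
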